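import Mathlib

set_option autoImplicit false

/-!
# A proper sigma-algebra on an interval that contains a selector of every partition

Let `κ` be the cofinality of the continuum.  It is a regular uncountable cardinal with `2 ^ κ > 𝔠`.
Copy `κ` injectively into the interval `I` by a map `e`, and let `𝔑` be the family of all sets that
agree with a Borel set on the range of `e` up to a nonstationary subset of `κ`.
For a piece of a partition that is not inside the range of `e` select a point outside the range;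
for a piece inside the range select its second smallest element in the order of `κ`.  The map sending
a selected element to the smallest element of its piece is injective and regressive, so (pressing
down) the selector meets the range of `e` in a nonstationary set and belongs to `𝔑`.
As there are `2 ^ κ > 𝔠` subsets of `κ` modulo the nonstationary ideal and only `𝔠` Borel sets, `𝔑` is
not the full power set.
-/

namespace Pool.Agent.Results.MP_04ddd8_lc.SelectorSigmaAlgebra

open Set Cardinal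

section Thin

variable {α : Type*} [LinearOrder α]

/-- `Thin A` says that `A` is nonstationary: for some function `c`, no element of `A` is closed
under `c`. -/
def Thin (A : Set α) : Prop := ∃ c : α → α, ∀ a ∈ A, ∃ b < a, a ≤ c b

theorem Thin.mono {A B : Set α} (h : Thin B) (hAB : A ⊆ B) : Thin A := by
  obtain ⟨c, hc⟩ := h
  exact ⟨c, fun a ha => hc a (hAB ha)⟩

/-- Countable sequences and images of initial segments are strictly bounded. -/
structure Reg (α : Type*) [LinearOrder α] : Prop where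
  seq : ∀ f : ℕ → α, ∃ b, ∀ n, f n < b
  ini : ∀ (a : α) (f : α → α), ∃ b, ∀ x ≤ a, f x < b

theorem Thin.iUnion (hr : Reg α) {A : ℕ → Set α} (h : ∀ n, Thin (A n)) : Thin (⋃ n, A n) := by
  choose c hc using h
  choose s hs using fun x => hr.seq (fun n => c n x)
  refine ⟨s, fun a ha => ?_⟩
  obtain ⟨n, hn⟩ := mem_iUnion.1 ha
  obtain ⟨b, hb, hb'⟩ := hc n a hn
  exact ⟨b, hb, hb'.trans (hs b n).le⟩

theorem Thin.union (hr : Reg α) {A B : Set α} (hA : Thin A) (hB : Thin B) : Thin (A ∪ B) := by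
  have h : Thin (⋃ n : ℕ, if n = 0 then A else B) := Thin.iUnion hr fun n => by
    by_cases hn : n = 0
    · simpa [hn] using hA
    · simpa [hn] using hB
  refine h.mono ?_
  rintro x (hx | hx)
  · exact mem_iUnion.2 ⟨0, by simpa using hx⟩
  · exact mem_iUnion.2 ⟨1, by simpa using hx⟩

theorem thin_empty : Thin (∅ : Set α) := ⟨id, fun a ha => absurd ha (notMem_empty a)⟩

/-- Pressing down for injective regressive functions. -/
theorem thin_of_regressive {A : Set α} (g : α → α) (hg : ∀ a ∈ A, g a < a)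
    (hinj : InjOn g A) : Thin A := by
  classical
  refine ⟨fun b => if h : ∃ a ∈ A, g a = b then h.choose else b, fun a ha => ⟨g a, hg a ha, ?_⟩⟩
  have h : ∃ a' ∈ A, g a' = g a := ⟨a, ha, rfl⟩
  simp only [dif_pos h]
  exact (hinj h.choose_spec.1 ha h.choose_spec.2).ge

/-- the points of countable cofinality -/
def E (α : Type*) [LinearOrder α] : Set α :=
  {a | ∃ s : ℕ → α, (∀ n, s n < a) ∧ ∀ b < a, ∃ n, b ≤ s n}

theorem not_thin_E [WellFoundedLT α] (hr : Reg α) (x : α) : ¬ Thin {a | a ∈ E α ∧ x < a} := by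
  rintro ⟨c, hc⟩
  choose s hs using fun a => hr.ini a c
  -- iterate
  choose t ht using fun a : α => hr.seq (fun n => if n = 0 then a else s a)
  have ht1 : ∀ a, a < t a := fun a => by simpa using ht a 0
  have ht2 : ∀ a, s a < t a := fun a => by simpa using ht a 1
  let u : ℕ → α := fun n => t^[n] x
  have hu : ∀ n, u (n + 1) = t (u n) := fun n => Function.iterate_succ_apply' t n x
  obtain ⟨b0, hb0⟩ := hr.seq u
  let a := (wellFounded_lt (α := α)).min {z | ∀ n, u n < z} ⟨b0, hb0⟩
  have ha : ∀ n, u n < a := (wellFounded_lt (α := α)).min_mem {z | ∀ n, u n < z} ⟨b0, hb0⟩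
  have hmin : ∀ b < a, ∃ n, b ≤ u n := by
    intro b hb
    by_contra hcon
    push Not at hcon
    exact (wellFounded_lt (α := α)).not_lt_min {z | ∀ n, u n < z} hcon hb
  obtain ⟨b, hb, hab⟩ := hc a ⟨⟨u, ha, hmin⟩, ha 0⟩
  obtain ⟨n, hn⟩ := hmin b hb
  have h1 : c b < s (u n) := hs (u n) b hn
  have h2 : s (u n) < u (n + 1) := by rw [hu]; exact ht2 _
  exact absurd (h1.trans (h2.trans (ha (n + 1)))) (not_lt.2 hab)

/-- There is a regressive function on the points of countable cofinality that has unboundedly many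
stationary fibres. -/
theorem exists_split [WellFoundedLT α] (hr : Reg α) :
    ∃ f : α → α, ∀ x, ∃ y, x ≤ y ∧ ¬ Thin {a | a ∈ E α ∧ f a = y} := by
  classical
  -- choose the sequences
  let s : α → ℕ → α := fun a => if h : a ∈ E α then h.choose else fun _ => a
  have hs : ∀ a ∈ E α, (∀ n, s a n < a) ∧ ∀ b < a, ∃ n, b ≤ s a n := by
    intro a ha
    simp only [s, dif_pos ha]
    exact ha.choose_spec
  -- choose the index
  have hn : ∃ n, ∀ x, ¬ Thin {a | a ∈ E α ∧ x ≤ s a n} := by
    by_contra hcon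
    push Not at hcon
    choose x hx using hcon
    obtain ⟨b, hb⟩ := hr.seq x
    refine not_thin_E hr b ((Thin.iUnion hr hx).mono ?_)
    rintro a ⟨ha, hba⟩
    obtain ⟨n, hn⟩ := (hs a ha).2 b hba
    exact mem_iUnion.2 ⟨n, ha, (hb n).le.trans hn⟩
  obtain ⟨n, hn⟩ := hn
  refine ⟨fun a => s a n, fun x => ?_⟩
  by_contra hcon
  push Not at hcon
  -- diagonal union
  have hex : ∀ y, ∃ c : α → α, x ≤ y → ∀ a ∈ {a | a ∈ E α ∧ s a n = y}, ∃ b < a, a ≤ c b := by
    intro y
    by_cases hy : x ≤ y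
    · obtain ⟨c, hc⟩ := hcon y hy
      exact ⟨c, fun _ => hc⟩
    · exact ⟨id, fun h => absurd h hy⟩
  choose c hc using hex
  choose d hd using fun (y z : α) => hr.ini z (fun z' => c y z')
  choose e he using fun z : α => hr.ini z (fun y => d y z)
  refine hn x ⟨e, ?_⟩
  rintro a ⟨haE, hxa⟩
  obtain ⟨b, hb, hab⟩ := hc (s a n) hxa a ⟨haE, rfl⟩
  refine ⟨max b (s a n), max_lt hb ((hs a haE).1 n), ?_⟩
  have h1 : c (s a n) b < d (s a n) (max b (s a n)) := hd _ _ b (le_max_left _ _)
  have h2 : d (s a n) (max b (s a n)) < e (max b (s a n)) := he _ _ (le_max_right _ _)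
  exact hab.trans (h1.trans h2).le

end Thin

/-- A regular uncountable cardinal `κ ≤ 𝔠` with `𝔠 < 2 ^ κ`, as a well-ordered type. -/
theorem exists_order : ∃ (α : Type) (_ : LinearOrder α) (_ : WellFoundedLT α), Reg α ∧ #α ≤ 𝔠 ∧
    ∀ Y : Set α, (∀ x, ∃ y ∈ Y, x ≤ y) → 𝔠 < 2 ^ #Y := by
  have hc : ℵ₀ ≤ (𝔠 : Cardinal.{0}) := aleph0_le_continuum
  have h0 : ℵ₀ < (𝔠 : Cardinal.{0}).ord.cof := by
    have := lt_cof_ord_power (le_refl (ℵ₀ : Cardinal.{0})) Cardinal.one_lt_two
    rwa [two_power_aleph0] at this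
  have hmk : #(𝔠 : Cardinal.{0}).ord.cof.ord.ToType = (𝔠 : Cardinal.{0}).ord.cof := mk_ord_toType _
  have hcof : Order.cof (𝔠 : Cardinal.{0}).ord.cof.ord.ToType = (𝔠 : Cardinal.{0}).ord.cof := by
    rw [Ordinal.cof_toType, Ordinal.cof_ord_cof]
  refine ⟨(𝔠 : Cardinal.{0}).ord.cof.ord.ToType, inferInstance, inferInstance, ⟨?_, ?_⟩, ?_, ?_⟩
  · intro f
    have h1 : ¬ IsCofinal (range f) := by
      intro h
      have h2 := Order.cof_le h
      rw [hcof] at h2
      exact absurd (h2.trans (mk_range_le.trans (by simp))) (not_le.2 h0)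
    unfold IsCofinal at h1
    push Not at h1
    obtain ⟨b, hb⟩ := h1
    exact ⟨b, fun n => hb _ ⟨n, rfl⟩⟩
  · intro a f
    have h1 : ¬ IsCofinal (f '' Iic a) := by
      intro h
      have h2 := Order.cof_le h
      rw [hcof] at h2
      have h3 : #(Iic a) < #(𝔠 : Cardinal.{0}).ord.cof.ord.ToType := by
        refine mk_Iic_lt a ?_ ?_
        · rw [hmk, Ordinal.type_toType]
        · rw [hmk]; exact h0.le
      rw [hmk] at h3
      exact absurd h2 (not_le.2 (mk_image_le.trans_lt h3))
    unfold IsCofinal at h1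
    push Not at h1
    obtain ⟨b, hb⟩ := h1
    exact ⟨b, fun x hx => hb _ ⟨x, hx, rfl⟩⟩
  · rw [hmk]
    exact Ordinal.cof_ord_le _
  · intro Y hY
    have h1 : (𝔠 : Cardinal.{0}).ord.cof ≤ #Y := by
      have := Order.cof_le (show IsCofinal Y from hY)
      rwa [hcof] at this
    calc (𝔠 : Cardinal.{0}) < 𝔠 ^ (𝔠 : Cardinal.{0}).ord.cof := lt_power_cof_ord hc
      _ = 2 ^ (𝔠 : Cardinal.{0}).ord.cof := by
        rw [← two_power_aleph0, ← power_mul, two_power_aleph0, aleph0_mul_eq h0.le]
      _ ≤ 2 ^ #Y := power_le_power_left two_ne_zero h1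

theorem mk_borel_le : #{D : Set ℝ | MeasurableSet D} ≤ 𝔠 := by
  have h := @MeasurableSpace.cardinal_measurableSet_le_continuum ℝ
    (MeasurableSpace.countableGeneratingSet ℝ)
    ((MeasurableSpace.countable_countableGeneratingSet (α := ℝ)).le_aleph0.trans
      aleph0_le_continuum)
  rwa [MeasurableSpace.generateFrom_countableGeneratingSet] at h

theorem continuum_le_mk {I : Set ℝ} (hI : I.OrdConnected) (hI' : I.Nontrivial) : 𝔠 ≤ #I := by
  obtain ⟨a, ha, b, hb, hab⟩ := hI'.exists_lt
  rw [← mk_Icc_real hab]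
  exact mk_le_mk_of_subset (hI.out ha hb)

/-- On every nondegenerate interval `I` of the real line there is a `σ`-algebra `𝔑` that contains
all subintervals, contains a selector of every partition of `I` into sets with at least two
elements, and is not the full power set of `I`. -/
theorem result (I : Set ℝ) (hI : I.OrdConnected) (hI' : I.Nontrivial) :
    ∃ 𝔑 : Set (Set I),
      (∀ J : Set I, J.OrdConnected → J ∈ 𝔑) ∧
      (∀ A ∈ 𝔑, Aᶜ ∈ 𝔑) ∧
      (∀ A : ℕ → Set I, (∀ n, A n ∈ 𝔑) → ⋃ n, A n ∈ 𝔑) ∧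
      (∀ P : Set (Set I), Setoid.IsPartition P → (∀ p ∈ P, p.Nontrivial) →
        ∃ S ∈ 𝔑, ∀ p ∈ P, ∃! x, x ∈ S ∩ p) ∧
      ∃ X : Set I, X ∉ 𝔑 := by
  classical
  obtain ⟨α, _, _, hr, hα, hbig⟩ := exists_order
  obtain ⟨e⟩ : Nonempty (α ↪ I) := hα.trans (continuum_le_mk hI hI')
  refine ⟨{T | ∃ D : Set ℝ, MeasurableSet D ∧ Thin {a : α | ¬ (e a ∈ T ↔ (e a : ℝ) ∈ D)}},
    ?_, ?_, ?_, ?_, ?_⟩
  · -- intervals
    intro J hJ
    refine ⟨Subtype.val '' J, ?_, ?_⟩
    · refine Set.OrdConnected.measurableSet ⟨?_⟩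
      rintro _ ⟨x, hx, rfl⟩ _ ⟨y, hy, rfl⟩ z hz
      exact ⟨⟨z, hI.out x.2 y.2 hz⟩, hJ.out hx hy hz, rfl⟩
    · refine thin_empty.mono ?_
      intro a ha
      exact absurd (by simp) ha
  · -- complements
    rintro A ⟨D, hD, hA⟩
    refine ⟨Dᶜ, hD.compl, hA.mono ?_⟩
    intro a ha
    intro h
    exact ha (not_congr h)
  · -- countable unions
    intro A hA
    choose D hD hA using hA
    refine ⟨⋃ n, D n, MeasurableSet.iUnion hD, (Thin.iUnion hr hA).mono ?_⟩
    intro a ha
    by_contra hcon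
    refine ha ?_
    rw [mem_iUnion] at hcon
    rw [mem_iUnion, mem_iUnion]
    refine exists_congr fun n => ?_
    by_contra hn
    exact hcon ⟨n, hn⟩
  · -- selectors
    intro P hP hP2
    -- the pieces inside the range
    have hex : ∀ p : P, ∃ x : I, x ∈ p.1 ∧ (p.1 ⊆ range e →
        ∃ m a : α, m < a ∧ e m ∈ p.1 ∧ e a = x) ∧ (¬ p.1 ⊆ range e → x ∉ range e) := by
      intro p
      by_cases hp : p.1 ⊆ range e
      · obtain ⟨x, hx, y, hy, hxy⟩ := hP2 p.1 p.2
        obtain ⟨a, rfl⟩ := hp hx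
        obtain ⟨b, rfl⟩ := hp hy
        have hab : a ≠ b := fun h => hxy (by rw [h])
        rcases lt_or_gt_of_ne hab with h | h
        · exact ⟨e b, hy, fun _ => ⟨a, b, h, hx, rfl⟩, fun h => absurd hp h⟩
        · exact ⟨e a, hx, fun _ => ⟨b, a, h, hy, rfl⟩, fun h => absurd hp h⟩
      · obtain ⟨x, hx, hx'⟩ := not_subset.1 hp
        exact ⟨x, hx, fun h => absurd h hp, fun _ => hx'⟩
    choose x hx hin hout using hex
    have huniq : ∀ p q : P, x p ∈ q.1 → p = q := by
      intro p q h
      obtain ⟨b, -, hb⟩ := hP.2 (x p)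
      exact Subtype.ext ((hb p.1 ⟨p.2, hx p⟩).trans (hb q.1 ⟨q.2, h⟩).symm)
    refine ⟨range x, ⟨∅, MeasurableSet.empty, ?_⟩, ?_⟩
    · have hsub : {a : α | ¬ (e a ∈ range x ↔ (e a : ℝ) ∈ (∅ : Set ℝ))} ⊆
          {a | ∃ p : P, x p = e a} := by
        intro a ha
        by_contra hcon
        apply ha
        simp only [mem_range, mem_empty_iff_false, iff_false]
        exact hcon
      refine Thin.mono ?_ hsub
      -- the regressive function
      have hg : ∀ a : α, ∃ m : α, (∃ p : P, x p = e a) →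
          ∃ p : P, x p = e a ∧ m < a ∧ e m ∈ p.1 := by
        intro a
        by_cases h : ∃ p : P, x p = e a
        · obtain ⟨p, hp⟩ := h
          have hpr : p.1 ⊆ range e := by
            by_contra hcon
            exact hout p hcon ⟨a, hp.symm⟩
          obtain ⟨m, a', hma, hm, ha'⟩ := hin p hpr
          have : a' = a := e.injective (ha'.trans hp)
          subst this
          exact ⟨m, fun _ => ⟨p, hp, hma, hm⟩⟩
        · exact ⟨a, fun h' => absurd h' h⟩
      choose g hg using hg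
      refine thin_of_regressive g (fun a ha => ?_) ?_
      · obtain ⟨p, -, h, -⟩ := hg a ha
        exact h
      · intro a ha b hb hab
        obtain ⟨p, hp, -, hpm⟩ := hg a ha
        obtain ⟨q, hq, -, hqm⟩ := hg b hb
        rw [hab] at hpm
        obtain ⟨r, -, hr'⟩ := hP.2 (e (g b))
        have hpq : p = q :=
          Subtype.ext ((hr' p.1 ⟨p.2, hpm⟩).trans (hr' q.1 ⟨q.2, hqm⟩).symm)
        subst hpq
        exact e.injective (hp.symm.trans hq)
    · intro p hp
      refine ⟨x ⟨p, hp⟩, ⟨⟨_, rfl⟩, hx ⟨p, hp⟩⟩, ?_⟩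
      rintro y ⟨⟨q, rfl⟩, hy⟩
      rw [huniq q ⟨p, hp⟩ hy]
  · -- not everything
    by_contra hcon
    simp only [not_exists, not_not] at hcon
    obtain ⟨f, hf⟩ := exists_split hr
    let Y : Set α := {y | ¬ Thin {a | a ∈ E α ∧ f a = y}}
    have hY : 𝔠 < 2 ^ #Y := hbig Y fun x => by
      obtain ⟨y, hxy, hy⟩ := hf x
      exact ⟨y, hy, hxy⟩
    choose D hD hT using fun Z : Set Y => hcon {t | ∃ a ∈ E α, e a = t ∧ ∃ y ∈ Z, f a = y.1}
    have hmem : ∀ (Z : Set Y) (a : α), a ∈ E α → ∀ y : Y, f a = y.1 →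
        (e a ∈ {t | ∃ a ∈ E α, e a = t ∧ ∃ y ∈ Z, f a = y.1} ↔ y ∈ Z) := by
      intro Z a ha y hy
      constructor
      · rintro ⟨a', ha', hea, y', hy', hfy⟩
        have : a' = a := e.injective hea
        subst this
        have : y = y' := Subtype.ext (hy.symm.trans hfy)
        rwa [this]
      · intro h
        exact ⟨a, ha, rfl, y, h, hy⟩
    have hinj : Function.Injective (fun Z : Set Y => (⟨D Z, hD Z⟩ : {D : Set ℝ | MeasurableSet D})) := by
      intro Z Z' h
      have hDD : D Z = D Z' := congrArg Subtype.val h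
      by_contra hne
      obtain ⟨y, hy⟩ : ∃ y : Y, ¬ (y ∈ Z ↔ y ∈ Z') := by
        by_contra hall
        simp only [not_exists, not_not] at hall
        exact hne (Set.ext hall)
      refine y.2 ((Thin.union hr (hT Z) (hT Z')).mono ?_)
      rintro a ⟨haE, hfa⟩
      by_contra hnot
      rw [mem_union, not_or] at hnot
      have h1 := not_not.1 hnot.1
      have h2 := not_not.1 hnot.2
      apply hy
      rw [← hmem Z a haE y hfa, ← hmem Z' a haE y hfa, h1, h2, hDD]
    have h1 : #(Set Y) ≤ #{D : Set ℝ | MeasurableSet D} := mk_le_of_injective hinj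
    rw [mk_set] at h1
    exact absurd (hY.trans_le (h1.trans mk_borel_le)) (lt_irrefl _)

end Pool.Agent.Results.MP_04ddd8_lc.SelectorSigmaAlgebra
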